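import Mathlib
import Pool.Agent.H56.GE.Lower

set_option autoImplicit false

/-!
# The girth function is the capacity of locality two

The maximal number of `k`-wise independent events, each of them determined by at most two of `n`
independent bits, is `γ(n + 1, k)`, the maximal number of edges of a graph with `n + 1` vertices and
girth `> k`.

Proof. Let `φ_v` be the normalised bit `v`. An event determined by the bits `s`, `t` has the
function `f = a φ_s + b φ_t + c φ_s φ_t`; if `c = 0` it is determined by one bit; then it becomes an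
edge at an additional vertex. `k`-wise independence makes the expectations of all products vanish.
Along a path this is the entry `(0, 0)` of the product of the matrices `(0, b; a, c)`, along a cycle
it is the trace, and this trace is `∏ c` or `(∏ c) (1 + a_i b_{i+1} / (c_i c_{i+1}))` with one `i`,
which cannot be zero for events.
-/

namespace Pool.Agent.Results.MP_97687e_co.ExactLocalityTwo

open Finset Filter

/-- `n` independent bits, both values have positive probability -/
def Bits {n : ℕ} (μ : Fin n → Fin 2 → ℝ) : Prop :=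
  ∀ v, (∀ a, 0 < μ v a) ∧ μ v 0 + μ v 1 = 1

/-- The probability of `B` for independent bits with the distributions `μ v`. -/
noncomputable def prob {n : ℕ} (μ : Fin n → Fin 2 → ℝ) (B : Set (Fin n → Fin 2)) : ℝ :=
  ∑ x, B.indicator (fun x => ∏ v, μ v (x v)) x

/-- The value of `f` is determined by the bits `u` and `w` (which may be equal). -/
def Determined {n : ℕ} {α : Type} (f : (Fin n → Fin 2) → α) (u w : Fin n) : Prop :=
  ∀ x y, x u = y u → x w = y w → f x = f y

/-- The events `B e` are `k`-wise independent. -/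
def Indep {n N : ℕ} (k : ℕ) (μ : Fin n → Fin 2 → ℝ) (B : Fin N → Set (Fin n → Fin 2)) : Prop :=
  ∀ F : Finset (Fin N), F.card ≤ k → prob μ (⋂ e ∈ F, B e) = ∏ e ∈ F, prob μ (B e)

/-- `B` is a family of `k`-wise independent events of positive probability `< 1`, each of them
determined by at most two of `n` independent bits. -/
def Fam {n N : ℕ} (k : ℕ) (μ : Fin n → Fin 2 → ℝ) (B : Fin N → Set (Fin n → Fin 2)) : Prop :=
  Bits μ ∧ (∀ e, ∃ u w, Determined (fun x => x ∈ B e) u w) ∧
    (∀ e, 0 < prob μ (B e) ∧ prob μ (B e) < 1) ∧ Indep k μ B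

/-- `γ(n, k)`: the maximal number of edges of a graph with `n` vertices and girth `> k`. -/
noncomputable def gam (n k : ℕ) : ℕ :=
  sSup {m | ∃ G : SimpleGraph (Fin n), ((k : ℕ) : ℕ∞) < G.egirth ∧ G.edgeSet.ncard = m}

lemma gam_greatest (n k : ℕ) : IsGreatest
    {m | ∃ G : SimpleGraph (Fin n), ((k : ℕ) : ℕ∞) < G.egirth ∧ G.edgeSet.ncard = m} (gam n k) := by
  classical
  have hne : {m | ∃ G : SimpleGraph (Fin n), ((k : ℕ) : ℕ∞) < G.egirth ∧
      G.edgeSet.ncard = m}.Nonempty := ⟨_, ⊥, by simp, rfl⟩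
  have hbd : BddAbove {m | ∃ G : SimpleGraph (Fin n), ((k : ℕ) : ℕ∞) < G.egirth ∧
      G.edgeSet.ncard = m} := by
    refine ⟨(Set.univ : Set (Sym2 (Fin n))).ncard, ?_⟩
    rintro m ⟨G, -, rfl⟩
    exact Set.ncard_le_ncard (Set.subset_univ _) (Set.toFinite _)
  exact ⟨Nat.sSup_mem hne hbd, fun m hm => le_csSup hbd hm⟩

lemma prob_eq {n : ℕ} (μ : Fin n → Fin 2 → ℝ) (B : Set (Fin n → Fin 2)) :
    prob μ B = H56.GL.prob μ B := rfl

/-- the graph of a family -/
theorem structure_thm {n N k : ℕ} (hk : 2 ≤ k) {μ : Fin n → Fin 2 → ℝ}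
    {B : Fin N → Set (Fin n → Fin 2)} (h : Fam k μ B) :
    ∃ s t : Fin N → Fin (n + 1), (∀ e, s e ≠ t e) ∧
      Function.Injective (fun e => s(s e, t e)) ∧
      ((k : ℕ) : ℕ∞) < (SimpleGraph.fromEdgeSet (Set.range fun e => s(s e, t e))).egirth ∧
      ∀ e x y, (∀ v : Fin n, v.succ = s e ∨ v.succ = t e → x v = y v) → (x ∈ B e ↔ y ∈ B e) := by
  classical
  obtain ⟨h1, h2, h3, h4⟩ := h
  have hedge : ∀ e, Nonempty (H56.GE.Edge μ (B e)) := by
    intro e
    obtain ⟨u, w, huw⟩ := h2 e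
    exact H56.GE.exists_edge h1 (fun x y hx hy => Iff.of_eq (huw x y hx hy)) (h3 e).1 (h3 e).2
  let E : ∀ e, H56.GE.Edge μ (B e) := fun e => (hedge e).some
  have hnc := H56.GE.noCyc h1 E h3 k h4
  have hst : ∀ e, (E e).s ≠ (E e).t := fun e => (E e).st
  refine ⟨fun e => (E e).s, fun e => (E e).t, hst, ?_, ?_, ?_⟩
  · intro e e' hee
    exact hnc.inj hk hst (mem_univ e) (mem_univ e') (Sym2.eq_iff.1 hee)
  · have h5 := hnc.girth
    have h6 : SimpleGraph.fromEdgeSet (Set.range fun e => s((E e).s, (E e).t)) =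
        H56.GL.pairGraph (fun e => (E e).s) (fun e => (E e).t) univ := by
      ext u w
      rw [SimpleGraph.fromEdgeSet_adj]
      simp only [H56.GL.pairGraph, Set.mem_range, Finset.mem_univ, true_and, Sym2.eq_iff]
      exact and_comm
    rw [h6]
    exact h5
  · intro e x y hxy
    rcases (E e).shape with ⟨v, β, e1, e2, e3, e4⟩ | ⟨u, w, β, e1, e2, e3, e4⟩
    · rw [e4, e4, hxy v (Or.inr e2.symm)]
    · rw [e4, e4, hxy u (Or.inl e1.symm), hxy w (Or.inr e2.symm)]

lemma upper {n N k : ℕ} (hk : 2 ≤ k) {μ : Fin n → Fin 2 → ℝ}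
    {B : Fin N → Set (Fin n → Fin 2)} (h : Fam k μ B) : N ≤ gam (n + 1) k := by
  obtain ⟨s, t, h1, h2, h3, -⟩ := structure_thm hk h
  refine (gam_greatest (n + 1) k).2 ⟨_, h3, ?_⟩
  rw [SimpleGraph.edgeSet_fromEdgeSet, sdiff_eq_left.2, Set.ncard_range_of_injective h2]
  · simp
  · rw [Set.disjoint_left]
    rintro a ⟨e, rfl⟩ h
    exact h1 e (by simpa using h)

/-- the event that two of the bits `0, x 0, …, x (n-1)` differ -/
def Dif {n : ℕ} (s t : Fin (n + 1)) : Set (Fin n → Fin 2) :=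
  {x | (Fin.cons 0 x : Fin (n + 1) → Fin 2) s ≠ (Fin.cons 0 x : Fin (n + 1) → Fin 2) t}

lemma dif_determined {n : ℕ} {s t : Fin (n + 1)} (h : s ≠ t) :
    ∃ u w, Determined (fun x => x ∈ Dif s t) u w := by
  have key : ∀ (s t : Fin (n + 1)) (u w : Fin n), (s = 0 ∨ s = u.succ) → (t = 0 ∨ t = w.succ) →
      Determined (fun x => x ∈ Dif s t) u w := by
    intro s t u w hs ht x y hx hy
    have h1 : (Fin.cons 0 x : Fin (n + 1) → Fin 2) s = (Fin.cons 0 y : Fin (n + 1) → Fin 2) s := by
      rcases hs with rfl | rfl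
      · simp
      · simpa using hx
    have h2 : (Fin.cons 0 x : Fin (n + 1) → Fin 2) t = (Fin.cons 0 y : Fin (n + 1) → Fin 2) t := by
      rcases ht with rfl | rfl
      · simp
      · simpa using hy
    simp only [Dif, Set.mem_ofPred_eq, h1, h2]
  rcases Fin.eq_zero_or_eq_succ s with hs | ⟨u, hs⟩ <;>
    rcases Fin.eq_zero_or_eq_succ t with ht | ⟨w, ht⟩
  · exact absurd (hs.trans ht.symm) h
  · exact ⟨w, w, key s t w w (Or.inl hs) (Or.inr ht)⟩
  · exact ⟨u, u, key s t u u (Or.inr hs) (Or.inl ht)⟩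
  · exact ⟨u, w, key s t u w (Or.inr hs) (Or.inr ht)⟩

lemma lower {n N k : ℕ} (hk : 1 ≤ k) (h : N ≤ gam (n + 1) k) :
    ∃ s t : Fin N → Fin (n + 1), Fam k (fun _ _ => 1 / 2) (fun e => Dif (s e) (t e)) := by
  classical
  obtain ⟨G, hG, hN⟩ := (gam_greatest (n + 1) k).1
  rw [← hN] at h
  have hfin : G.edgeSet.Finite := Set.toFinite _
  let φ : G.edgeSet ≃ Fin G.edgeSet.ncard := Finite.equivFinOfCardEq (by rfl)
  have hex : ∀ e : Fin N, ∃ p : Fin (n + 1) × Fin (n + 1),
      s(p.1, p.2) = (φ.symm (Fin.castLE h e) : Sym2 (Fin (n + 1))) := by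
    intro e
    induction' h' : (φ.symm (Fin.castLE h e) : Sym2 (Fin (n + 1))) with u w
    exact ⟨(u, w), rfl⟩
  choose p hp using hex
  have hadj : ∀ e, G.Adj (p e).1 (p e).2 := fun e => by
    rw [← SimpleGraph.mem_edgeSet, hp]
    exact (φ.symm _).2
  have hinj : Function.Injective (fun e => s((p e).1, (p e).2)) := by
    intro e e' h'
    simp only [hp] at h'
    exact Fin.castLE_injective h (φ.symm.injective (Subtype.ext h'))
  have hprob : ∀ F : Finset (Fin N), F.card ≤ k →
      prob (fun _ _ => 1 / 2) (⋂ e ∈ F, Dif (p e).1 (p e).2) = (1 / 2) ^ F.card := by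
    intro F hF
    have hle : H56.GL.pairGraph (fun e => (p e).1) (fun e => (p e).2) F ≤ G := by
      rintro u w ⟨-, e, -, h2⟩
      rcases h2 with ⟨h3, h4⟩ | ⟨h3, h4⟩
      · rw [← h3, ← h4]; exact hadj e
      · rw [← h3, ← h4]; exact (hadj e).symm
    exact H56.GE.dif_indep (k := k) (s := fun e => (p e).1) (t := fun e => (p e).2)
      (fun e => (hadj e).ne) F hinj.injOn (lt_of_lt_of_le hG (SimpleGraph.egirth_anti hle)) hF
  have h1 : ∀ e, prob (fun _ _ => 1 / 2) (Dif (p e).1 (p e).2) = 1 / 2 := by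
    intro e
    have := hprob {e} (by simpa using hk)
    simpa using this
  refine ⟨fun e => (p e).1, fun e => (p e).2, ?_, fun e => dif_determined (hadj e).ne,
    fun e => by rw [h1]; norm_num, fun F hF => ?_⟩
  · intro v
    norm_num
  · rw [hprob F hF]
    simp only [h1, Finset.prod_const]

lemma prob_pos {n : ℕ} {μ : Fin n → Fin 2 → ℝ} (hμ : Bits μ) {B : Set (Fin n → Fin 2)}
    {x : Fin n → Fin 2} (hx : x ∈ B) : 0 < prob μ B := by
  classical
  have h1 : 0 < ∏ v, μ v (x v) := Finset.prod_pos (fun v _ => (hμ v).1 _)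
  refine lt_of_lt_of_le h1 ?_
  have h2 : ∏ v, μ v (x v) = B.indicator (fun x => ∏ v, μ v (x v)) x := by
    rw [Set.indicator_of_mem hx]
  rw [h2]
  refine Finset.single_le_sum (f := fun x => B.indicator (fun x => ∏ v, μ v (x v)) x)
    (fun y _ => ?_) (mem_univ x)
  exact Set.indicator_nonneg (fun z _ => Finset.prod_nonneg (fun v _ => ((hμ v).1 _).le)) y

lemma prob_lt {n : ℕ} {μ : Fin n → Fin 2 → ℝ} (hμ : Bits μ) {B : Set (Fin n → Fin 2)}
    {x : Fin n → Fin 2} (hx : x ∉ B) : prob μ B < 1 := by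
  have h1 := H56.GL.prob_add μ Set.univ B
  rw [Set.univ_inter, Set.univ_inter, H56.GE.prob_univ hμ] at h1
  have h2 : 0 < prob μ Bᶜ := prob_pos hμ (x := x) hx
  rw [prob_eq] at h2 ⊢
  linarith

lemma upper_fun {n N k : ℕ} (hk : 2 ≤ k) {α : Type} {μ : Fin n → Fin 2 → ℝ}
    {Y : Fin N → (Fin n → Fin 2) → α} (hμ : Bits μ) (hdet : ∀ e, ∃ u w, Determined (Y e) u w)
    (hnc : ∀ e, ∃ x y, Y e x ≠ Y e y)
    (hind : ∀ F : Finset (Fin N), F.card ≤ k → ∀ y : Fin N → α,
      prob μ {x | ∀ e ∈ F, Y e x = y e} = ∏ e ∈ F, prob μ {x | Y e x = y e}) :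
    N ≤ gam (n + 1) k := by
  choose x y hxy using hnc
  refine upper hk (μ := μ) (B := fun e => {z | Y e z = Y e (x e)}) ⟨hμ, ?_, ?_, ?_⟩
  · intro e
    obtain ⟨u, w, h⟩ := hdet e
    refine ⟨u, w, fun z z' h1 h2 => ?_⟩
    simp only [Set.mem_ofPred_eq, h z z' h1 h2]
  · intro e
    refine ⟨prob_pos hμ (x := x e) rfl, prob_lt hμ (x := y e) ?_⟩
    simp only [Set.mem_ofPred_eq]
    exact fun h => hxy e h.symm
  · intro F hF
    have h1 := hind F hF (fun e => Y e (x e))
    have h2 : (⋂ e ∈ F, {z | Y e z = Y e (x e)}) = {z | ∀ e ∈ F, Y e z = Y e (x e)} := by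
      ext z
      simp
    rw [h2]
    exact h1

lemma gam_two (n : ℕ) : gam n 2 = n.choose 2 := by
  classical
  apply le_antisymm
  · obtain ⟨G, -, hG⟩ := (gam_greatest n 2).1
    rw [← hG, ← SimpleGraph.coe_edgeFinset, Set.ncard_coe_finset]
    simpa using SimpleGraph.card_edgeFinset_le_card_choose_two (G := G)
  · refine (gam_greatest n 2).2 ⟨⊤, lt_of_lt_of_le (by norm_num) SimpleGraph.three_le_egirth, ?_⟩
    rw [← SimpleGraph.coe_edgeFinset, Set.ncard_coe_finset,
      SimpleGraph.card_edgeFinset_top_eq_card_choose_two, Fintype.card_fin]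

lemma girth_three {V : Type} {G : SimpleGraph V} : ((3 : ℕ) : ℕ∞) < G.egirth ↔ G.CliqueFree 3 := by
  classical
  constructor
  · intro h s hs
    obtain ⟨u, w, hw, hl⟩ := SimpleGraph.is3Clique_iff_exists_cycle_length_three.1 ⟨s, hs⟩
    have := SimpleGraph.egirth_le_length hw
    rw [hl] at this
    exact absurd h (not_lt.2 this)
  · intro h
    have h1 : ((4 : ℕ) : ℕ∞) ≤ G.egirth := by
      rw [SimpleGraph.le_egirth]
      intro a w hw
      have h3 := hw.three_le_length
      rcases Nat.lt_or_ge w.length 4 with h4 | h4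
      · exfalso
        obtain ⟨s, hs⟩ := SimpleGraph.is3Clique_iff_exists_cycle_length_three.2
          ⟨a, w, hw, by omega⟩
        exact h s hs
      · exact_mod_cast h4
    exact lt_of_lt_of_le (by norm_num) h1

lemma mantel_num (n : ℕ) :
    (n ^ 2 - (n % 2) ^ 2) * (2 - 1) / (2 * 2) + (n % 2).choose 2 = n ^ 2 / 4 := by
  rcases Nat.even_or_odd' n with ⟨m, rfl | rfl⟩
  · have h1 : 2 * m % 2 = 0 := by omega
    rw [h1]
    simp
  · have h1 : (2 * m + 1) % 2 = 1 := by omega
    rw [h1]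
    have h2 : (2 * m + 1) ^ 2 = 4 * (m ^ 2 + m) + 1 := by ring
    rw [h2]
    simp only [Nat.choose_eq_zero_of_lt (show 1 < 2 by norm_num)]
    omega

lemma gam_three (n : ℕ) : gam n 3 = n ^ 2 / 4 := by
  classical
  apply le_antisymm
  · obtain ⟨G, h1, hG⟩ := (gam_greatest n 3).1
    rw [← hG, ← SimpleGraph.coe_edgeFinset, Set.ncard_coe_finset]
    have := SimpleGraph.CliqueFree.card_edgeFinset_le (r := 2) (girth_three.1 h1)
    simp only [Fintype.card_fin] at this
    rwa [mantel_num] at this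
  · refine (gam_greatest n 3).2 ⟨SimpleGraph.turanGraph n 2,
      girth_three.2 (SimpleGraph.turanGraph_cliqueFree (by norm_num)), ?_⟩
    rw [← SimpleGraph.coe_edgeFinset, Set.ncard_coe_finset, ← mantel_num n]
    convert! SimpleGraph.card_edgeFinset_turanGraph (n := n) (r := 2)

/-- the number of events and the number of edges have the same asymptotics -/
lemma same_constant (m : ℕ) (hm : 1 ≤ m) (C : ℝ) :
    (∀ c < C, ∀ᶠ n : ℕ in atTop, c * (n : ℝ) ^ (1 + 1 / (m : ℝ)) ≤ gam n (2 * m)) ↔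
    (∀ c < C, ∀ᶠ n : ℕ in atTop, c * (n : ℝ) ^ (1 + 1 / (m : ℝ)) ≤ gam (n + 1) (2 * m)) := by
  have hp : 0 < 1 + 1 / (m : ℝ) := by positivity
  constructor
  · intro h c hc
    have h1 := (tendsto_add_atTop_nat 1).eventually (h c hc)
    filter_upwards [h1] with n hn
    rcases le_or_gt c 0 with h0 | h0
    · have : c * (n : ℝ) ^ (1 + 1 / (m : ℝ)) ≤ 0 :=
        mul_nonpos_of_nonpos_of_nonneg h0 (by positivity)
      exact this.trans (Nat.cast_nonneg _)
    · refine le_trans ?_ hn
      apply mul_le_mul_of_nonneg_left _ h0.le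
      apply Real.rpow_le_rpow (by positivity) _ hp.le
      push_cast
      linarith
  · intro h c hc
    rcases le_or_gt c 0 with h0 | h0
    · filter_upwards with n
      have : c * (n : ℝ) ^ (1 + 1 / (m : ℝ)) ≤ 0 :=
        mul_nonpos_of_nonpos_of_nonneg h0 (by positivity)
      exact this.trans (Nat.cast_nonneg _)
    · obtain ⟨c', hc1, hc2⟩ := exists_between hc
      have hc0 : 0 < c' := h0.trans hc1
      -- ((n+1)/n)^p tends to 1
      have hlim : Tendsto (fun n : ℕ => (((n : ℝ) + 1) / n) ^ (1 + 1 / (m : ℝ))) atTop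
          (nhds (1 ^ (1 + 1 / (m : ℝ)))) := by
        apply Tendsto.rpow_const
        · have h2 : Tendsto (fun n : ℕ => 1 + 1 / (n : ℝ)) atTop (nhds (1 + 0)) :=
            tendsto_const_nhds.add tendsto_one_div_atTop_nhds_zero_nat
          rw [add_zero] at h2
          refine h2.congr' ?_
          filter_upwards [eventually_gt_atTop 0] with n hn
          have : (n : ℝ) ≠ 0 := by positivity
          field_simp
        · left; norm_num
      rw [Real.one_rpow] at hlim
      have h3 : ∀ᶠ n : ℕ in atTop, (((n : ℝ) + 1) / n) ^ (1 + 1 / (m : ℝ)) < c' / c :=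
        hlim.eventually_lt_const (by rw [lt_div_iff₀ h0]; linarith)
      have h4 : ∀ᶠ n : ℕ in atTop,
          c * ((n + 1 : ℕ) : ℝ) ^ (1 + 1 / (m : ℝ)) ≤ gam (n + 1) (2 * m) := by
        filter_upwards [h3, h c' hc2, eventually_gt_atTop 0] with n hn1 hn2 hn3
        refine le_trans ?_ hn2
        have hn0 : (0 : ℝ) < n := by exact_mod_cast hn3
        rw [Real.div_rpow (by positivity) hn0.le,
          div_lt_div_iff₀ (by positivity) h0] at hn1
        push_cast
        linarith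
      rw [eventually_atTop] at h4 ⊢
      obtain ⟨a, ha⟩ := h4
      refine ⟨a + 1, fun n hn => ?_⟩
      have := ha (n - 1) (by omega)
      rwa [show n - 1 + 1 = n from by omega] at this

theorem result :
    -- `gam n k` is the maximal number of edges of a graph with `n` vertices and girth `> k`
    (∀ n k : ℕ, IsGreatest {m | ∃ G : SimpleGraph (Fin n),
      ((k : ℕ) : ℕ∞) < G.egirth ∧ G.edgeSet.ncard = m} (gam n k)) ∧
    -- the maximal number of `k`-wise independent events of locality two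
    (∀ n k : ℕ, 2 ≤ k → IsGreatest {N | ∃ (μ : Fin n → Fin 2 → ℝ)
      (B : Fin N → Set (Fin n → Fin 2)), Fam k μ B} (gam (n + 1) k)) ∧
    -- every family of such events lives on the edges of a graph of girth `> k` with one more vertex
    (∀ n N k : ℕ, 2 ≤ k → ∀ (μ : Fin n → Fin 2 → ℝ) (B : Fin N → Set (Fin n → Fin 2)), Fam k μ B →
      ∃ s t : Fin N → Fin (n + 1), (∀ e, s e ≠ t e) ∧
        Function.Injective (fun e => s(s e, t e)) ∧
        ((k : ℕ) : ℕ∞) < (SimpleGraph.fromEdgeSet (Set.range fun e => s(s e, t e))).egirth ∧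
        ∀ e x y, (∀ v : Fin n, v.succ = s e ∨ v.succ = t e → x v = y v) →
          (x ∈ B e ↔ y ∈ B e)) ∧
    -- the same bound for random variables with arbitrary values
    (∀ (n N k : ℕ) (α : Type) (μ : Fin n → Fin 2 → ℝ) (Y : Fin N → (Fin n → Fin 2) → α),
      2 ≤ k → Bits μ → (∀ e, ∃ u w, Determined (Y e) u w) → (∀ e, ∃ x y, Y e x ≠ Y e y) →
      (∀ F : Finset (Fin N), F.card ≤ k → ∀ y : Fin N → α,
        prob μ {x | ∀ e ∈ F, Y e x = y e} = ∏ e ∈ F, prob μ {x | Y e x = y e}) →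
      N ≤ gam (n + 1) k) ∧
    -- `k = 2` and `k = 3`
    (∀ n : ℕ, gam n 2 = n.choose 2 ∧ gam n 3 = n ^ 2 / 4) ∧
    -- the girth conjecture for `m` with all constants `c < C`
    (∀ m : ℕ, 1 ≤ m → ∀ C : ℝ,
      (∀ c < C, ∀ᶠ n : ℕ in atTop, c * (n : ℝ) ^ (1 + 1 / (m : ℝ)) ≤ gam n (2 * m)) ↔
      (∀ c < C, ∀ᶠ n : ℕ in atTop, ∃ (N : ℕ) (μ : Fin n → Fin 2 → ℝ)
        (B : Fin N → Set (Fin n → Fin 2)),
        c * (n : ℝ) ^ (1 + 1 / (m : ℝ)) ≤ N ∧ Fam (2 * m) μ B)) := by
  refine ⟨gam_greatest, ?_, ?_, ?_, fun n => ⟨gam_two n, gam_three n⟩, ?_⟩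
  · intro n k hk
    constructor
    · obtain ⟨s, t, h⟩ := lower (n := n) (k := k) (N := gam (n + 1) k) (by omega) le_rfl
      exact ⟨_, _, h⟩
    · rintro N ⟨μ, B, h⟩
      exact upper hk h
  · intro n N k hk μ B h
    exact structure_thm hk h
  · intro n N k α μ Y hk hμ hdet hnc hind
    exact upper_fun hk hμ hdet hnc hind
  · intro m hm C
    rw [same_constant m hm C]
    constructor
    · intro h c hc
      filter_upwards [h c hc] with n hn
      obtain ⟨s, t, h'⟩ := lower (n := n) (k := 2 * m) (N := gam (n + 1) (2 * m)) (by omega) le_rfl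
      exact ⟨_, _, _, hn, h'⟩
    · intro h c hc
      filter_upwards [h c hc] with n hn
      obtain ⟨N, μ, B, h1, h2⟩ := hn
      refine h1.trans ?_
      exact_mod_cast upper (by omega) h2

end Pool.Agent.Results.MP_97687e_co.ExactLocalityTwo
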